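import Pool.Agent.Lib.MP_37caee_an.Main

/-!
Negative answer: partial data uniqueness holds for the disjoint measurement sets
`(-∞, -1)` and `(1, ∞)`, which touch the domain `(-1, 1)`.
-/

open MeasureTheory Set Pool.Agent.Lib.MP_37caee_an

theorem Pool.Agent.Results.MP_37caee_an.Touching.result (s : ℝ) (hs0 : 0 < s) (hs1 : s < 1 / 2) :
    ∃ Ω W₁ W₂ : Set ℝ, Ω = Ioo (-1) 1 ∧ W₁ = Iio (-1) ∧ W₂ = Ioi 1 ∧
      IsOpen Ω ∧ Bornology.IsBounded Ω ∧ Ω.Nonempty ∧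
      IsOpen W₁ ∧ IsOpen W₂ ∧ W₁.Nonempty ∧ W₂.Nonempty ∧
      W₁ ⊆ (closure Ω)ᶜ ∧ W₂ ⊆ (closure Ω)ᶜ ∧ Disjoint W₁ W₂ ∧
      (∀ ε > 0, ∃ x ∈ W₁ ∪ W₂, ∃ y ∈ Ω, dist x y < ε) ∧
      ∀ γ₁ γ₂ : ℝ → ℝ, Admissible s γ₁ → Admissible s γ₂ → SameData s Ω W₁ W₂ γ₁ γ₂ →
        γ₁ =ᵐ[volume] γ₂ := by
  refine ⟨_, _, _, rfl, rfl, rfl, isOpen_Ioo, Metric.isBounded_Ioo _ _, ⟨0, by simp⟩, isOpen_Iio,
    isOpen_Ioi, nonempty_Iio, nonempty_Ioi, ?_, ?_, ?_, ?_,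
    fun γ₁ γ₂ h₁ h₂ hS => uniqueness hs0 hs1 h₁ h₂ hS⟩
  · rw [closure_Ioo (by norm_num)]
    exact fun x hx h => not_le.2 hx h.1
  · rw [closure_Ioo (by norm_num)]
    exact fun x hx h => not_le.2 hx h.2
  · refine Set.disjoint_left.2 fun x h1 h2 => ?_
    have a : x < -1 := h1
    have b : 1 < x := h2
    linarith
  · intro ε hε
    have h1 : 0 < min ε 1 := lt_min hε one_pos
    have h2 := min_le_left ε 1
    have h3 := min_le_right ε 1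
    refine ⟨1 + min ε 1 / 4, Or.inr (mem_Ioi.2 (by linarith)), 1 - min ε 1 / 4,
      ⟨by linarith, by linarith⟩, ?_⟩
    rw [Real.dist_eq, abs_lt]
    constructor <;> linarith
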